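import Pool.Agent.Helper30.ML.Goals

/-!
# Project ML (MP_bf413e_co), packet CT: contraction of an edge
-/

set_option autoImplicit false
set_option linter.unusedSectionVars false

namespace Pool.Agent.Helper39.ML

open scoped Classical
open Finset
open Pool.Agent.Helper94.KC (QG Even2)
open Pool.Agent.Helper30.ML

section par

variable {V : Type}

/-- parity at a vertex -/
noncomputable def par (w : V) (s : Finset (Finset V)) : ZMod 2 := ∑ e ∈ s, if w ∈ e then 1 else 0

theorem even_iff (w : V) (s : Finset (Finset V)) :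
    Even (s.filter (fun e => w ∈ e)).card ↔ par w s = 0 := by
  unfold par
  rw [Finset.sum_boole, ZMod.natCast_eq_zero_iff_even]

theorem even2_iff (s : Finset (Finset V)) : Even2 s ↔ ∀ w, par w s = 0 :=
  forall_congr' fun w => even_iff w s

theorem par_erase (w : V) (s : Finset (Finset V)) (e : Finset V) (h : e ∈ s) :
    par w (s.erase e) + (if w ∈ e then 1 else 0) = par w s := by
  unfold par
  rw [add_comm, Finset.add_sum_erase s (fun e => if w ∈ e then (1 : ZMod 2) else 0) h]

theorem par_insert (w : V) (s : Finset (Finset V)) (e : Finset V) (h : e ∉ s) :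
    par w (insert e s) = (if w ∈ e then 1 else 0) + par w s := by
  unfold par
  rw [Finset.sum_insert h]

end par

section ct

variable {V : Type} [Fintype V] {G : SimpleGraph V} {p q : V}

theorem mem_eG {H : SimpleGraph V} {e : Finset V} : e ∈ eG H ↔ ∃ u v, H.Adj u v ∧ e = {u, v} := by
  unfold eG
  simp

theorem cr_q (p q : V) : cr p q q = p := by simp [cr]

theorem cr_ne {p q v : V} (h : v ≠ q) : cr p q v = v := by simp [cr, h]

theorem cr_p (p q : V) : cr p q p = p := by
  unfold cr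
  split_ifs <;> rfl

theorem cr_eq {a b : V} (h : cr p q a = cr p q b) :
    a = b ∨ (a = p ∧ b = q) ∨ (a = q ∧ b = p) := by
  by_cases ha : a = q
  · by_cases hb : b = q
    · exact Or.inl (ha.trans hb.symm)
    · rw [ha, cr_q, cr_ne hb] at h
      exact Or.inr (Or.inr ⟨ha, h.symm⟩)
  · by_cases hb : b = q
    · rw [hb, cr_q, cr_ne ha] at h
      exact Or.inr (Or.inl ⟨h, hb⟩)
    · rw [cr_ne ha, cr_ne hb] at h
      exact Or.inl h

theorem mem_im (w : V) (hp : w ≠ p) (hq : w ≠ q) (e : Finset V) :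
    w ∈ e.image (cr p q) ↔ w ∈ e := by
  rw [mem_image]
  constructor
  · rintro ⟨a, ha, h⟩
    by_cases h1 : a = q
    · rw [h1, cr_q] at h
      exact absurd h.symm hp
    · rw [cr_ne h1] at h
      exact h ▸ ha
  · intro h
    exact ⟨w, h, cr_ne hq⟩

theorem mem_im_p (e : Finset V) : p ∈ e.image (cr p q) ↔ p ∈ e ∨ q ∈ e := by
  rw [mem_image]
  constructor
  · rintro ⟨a, ha, h⟩
    by_cases h1 : a = q
    · exact Or.inr (h1 ▸ ha)
    · rw [cr_ne h1] at h
      exact Or.inl (h ▸ ha)
  · rintro (h | h)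
    · exact ⟨p, h, cr_p p q⟩
    · exact ⟨q, h, cr_q p q⟩

theorem mem_im_q (hpq : p ≠ q) (e : Finset V) : q ∉ e.image (cr p q) := by
  rw [mem_image]
  rintro ⟨a, -, h⟩
  by_cases h1 : a = q
  · rw [h1, cr_q] at h
    exact hpq h
  · rw [cr_ne h1] at h
    exact h1 h

theorem pair_eq {a b c d : V} (h : ({a, b} : Finset V) = {c, d}) :
    (a = c ∧ b = d) ∨ (a = d ∧ b = c) := by
  have h1 : ({a, b} : Set V) = {c, d} := by
    have := congrArg (fun s : Finset V => (s : Set V)) h
    simpa using this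
  exact Set.pair_eq_pair_iff.1 h1

theorem im_pair (u v : V) : ({u, v} : Finset V).image (cr p q) = {cr p q u, cr p q v} := by
  rw [image_insert, image_singleton]

/-- the edges without `{p, q}` -/
noncomputable def E0 (G : SimpleGraph V) (p q : V) : Finset (Finset V) := (eG G).erase {p, q}

theorem phi_in {e : Finset V} (he : e ∈ E0 G p q) : e.image (cr p q) ∈ eG (QG G (cr p q)) := by
  obtain ⟨h1, h2⟩ := mem_erase.1 he
  obtain ⟨u, v, huv, rfl⟩ := mem_eG.1 h2
  rw [mem_eG]
  refine ⟨cr p q u, cr p q v, ⟨?_, u, v, rfl, rfl, huv⟩, im_pair u v⟩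
  intro h
  rcases cr_eq h with h3 | ⟨h3, h4⟩ | ⟨h3, h4⟩
  · exact huv.ne h3
  · exact h1 (by rw [h3, h4])
  · exact h1 (by rw [h3, h4, pair_comm])

theorem phi_surj {e' : Finset V} (he : e' ∈ eG (QG G (cr p q))) :
    ∃ e ∈ E0 G p q, e.image (cr p q) = e' := by
  obtain ⟨x, y, ⟨hxy, u, v, hu, hv, huv⟩, rfl⟩ := mem_eG.1 he
  refine ⟨{u, v}, mem_erase.2 ⟨?_, mem_eG.2 ⟨u, v, huv, rfl⟩⟩, ?_⟩
  · intro h
    apply hxy
    rw [← hu, ← hv]
    rcases pair_eq h with ⟨h1, h2⟩ | ⟨h1, h2⟩
    · rw [h1, h2, cr_p, cr_q]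
    · rw [h1, h2, cr_p, cr_q]
  · rw [im_pair, hu, hv]

theorem phi_inj (hno : ∀ u, ¬ (G.Adj p u ∧ G.Adj q u)) {e₁ e₂ : Finset V} (h1 : e₁ ∈ E0 G p q)
    (h2 : e₂ ∈ E0 G p q) (h : e₁.image (cr p q) = e₂.image (cr p q)) : e₁ = e₂ := by
  obtain ⟨n1, m1⟩ := mem_erase.1 h1
  obtain ⟨n2, m2⟩ := mem_erase.1 h2
  obtain ⟨u, v, huv, rfl⟩ := mem_eG.1 m1
  obtain ⟨u', v', huv', rfl⟩ := mem_eG.1 m2
  rw [im_pair, im_pair] at h
  have key : ∀ a b a' b' : V, G.Adj a b → G.Adj a' b' → ({a, b} : Finset V) ≠ {p, q} →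
      cr p q a = cr p q a' → cr p q b = cr p q b' → ({a, b} : Finset V) = {a', b'} := by
    intro a b a' b' hab hab' hn ha hb
    rcases cr_eq ha with e | ⟨e, e'⟩ | ⟨e, e'⟩
    · rcases cr_eq hb with f | ⟨f, f'⟩ | ⟨f, f'⟩
      · rw [e, f]
      · subst e f f'
        exact absurd ⟨hab.symm, hab'.symm⟩ (hno a)
      · subst e f f'
        exact absurd ⟨hab'.symm, hab.symm⟩ (hno a)
    · rcases cr_eq hb with f | ⟨f, f'⟩ | ⟨f, f'⟩
      · subst e e' f
        exact absurd ⟨hab, hab'⟩ (hno b)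
      · exact absurd (e.trans f.symm) hab.ne
      · exact absurd (by rw [e, f]) hn
    · rcases cr_eq hb with f | ⟨f, f'⟩ | ⟨f, f'⟩
      · subst e e' f
        exact absurd ⟨hab', hab⟩ (hno b)
      · exact absurd (by rw [e, f, pair_comm]) hn
      · exact absurd (e.trans f.symm) hab.ne
  rcases pair_eq h with ⟨ha, hb⟩ | ⟨ha, hb⟩
  · exact key u v u' v' huv huv' n1 ha hb
  · rw [key u v v' u' huv huv'.symm n1 ha hb, pair_comm]

theorem not_both {e : Finset V} (he : e ∈ E0 G p q) (hpq : p ≠ q) : ¬ (p ∈ e ∧ q ∈ e) := by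
  rintro ⟨hp, hq⟩
  obtain ⟨n1, m1⟩ := mem_erase.1 he
  obtain ⟨u, v, huv, rfl⟩ := mem_eG.1 m1
  simp only [mem_insert, mem_singleton] at hp hq
  rcases hp with hp | hp
  · rcases hq with hq | hq
    · exact hpq (hp.trans hq.symm)
    · exact n1 (by rw [hp, hq])
  · rcases hq with hq | hq
    · exact n1 (by rw [hp, hq, pair_comm])
    · exact hpq (hp.trans hq.symm)

theorem par_im (hno : ∀ u, ¬ (G.Adj p u ∧ G.Adj q u)) (w : V) {s : Finset (Finset V)}
    (hs : s ⊆ E0 G p q) : par w (s.image (fun e => e.image (cr p q))) =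
      ∑ e ∈ s, if w ∈ e.image (cr p q) then 1 else 0 := by
  unfold par
  rw [sum_image]
  intro a ha b hb h
  exact phi_inj hno (hs ha) (hs hb) h

theorem par_im1 (hno : ∀ u, ¬ (G.Adj p u ∧ G.Adj q u)) (w : V) (hp : w ≠ p) (hq : w ≠ q)
    {s : Finset (Finset V)} (hs : s ⊆ E0 G p q) :
    par w (s.image (fun e => e.image (cr p q))) = par w s := by
  rw [par_im hno w hs]
  unfold par
  exact sum_congr rfl fun e _ => by simp only [mem_im w hp hq]

theorem par_im2 (hno : ∀ u, ¬ (G.Adj p u ∧ G.Adj q u)) (hpq : p ≠ q)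
    {s : Finset (Finset V)} (hs : s ⊆ E0 G p q) :
    par p (s.image (fun e => e.image (cr p q))) = par p s + par q s := by
  rw [par_im hno p hs]
  unfold par
  rw [← sum_add_distrib]
  refine sum_congr rfl fun e he => ?_
  have h := not_both (hs he) hpq
  simp only [mem_im_p]
  by_cases h1 : p ∈ e
  · by_cases h2 : q ∈ e
    · exact absurd ⟨h1, h2⟩ h
    · simp [h1, h2]
  · by_cases h2 : q ∈ e <;> simp [h1, h2]

theorem par_im3 (hno : ∀ u, ¬ (G.Adj p u ∧ G.Adj q u)) (hpq : p ≠ q)
    {s : Finset (Finset V)} (hs : s ⊆ E0 G p q) :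
    par q (s.image (fun e => e.image (cr p q))) = 0 := by
  rw [par_im hno q hs]
  exact sum_eq_zero fun e _ => by rw [if_neg (mem_im_q hpq e)]

theorem zmod2_two (x : ZMod 2) : x + x = 0 := CharTwo.add_self_eq_zero x

/-- the case without common neighbours -/
theorem ct0 (hno : ∀ u, ¬ (G.Adj p u ∧ G.Adj q u)) (hG : Mac G) (hpq' : G.Adj p q) :
    Mac (QG G (cr p q)) := by
  have hpq : p ≠ q := hpq'.ne
  obtain ⟨m, f, hf⟩ := hG
  have hsub : ∀ i, (f i).erase {p, q} ⊆ E0 G p q := fun i =>
    erase_subset_erase _ (hf.sub i)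
  have hmem : ∀ i, ∀ e ∈ E0 G p q, e.image (cr p q) ∈
      ((f i).erase {p, q}).image (fun e => e.image (cr p q)) ↔ e ∈ f i := by
    intro i e he
    rw [mem_image]
    constructor
    · rintro ⟨e', he', h⟩
      rw [← phi_inj hno (hsub i he') he h]
      exact (mem_erase.1 he').2
    · intro h
      exact ⟨e, mem_erase.2 ⟨(mem_erase.1 he).1, h⟩, rfl⟩
  have hout : ∀ i, ∀ e' ∉ eG (QG G (cr p q)),
      e' ∉ ((f i).erase {p, q}).image (fun e => e.image (cr p q)) := by
    intro i e' he' h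
    obtain ⟨e, he, rfl⟩ := mem_image.1 h
    exact he' (phi_in (hsub i he))
  refine ⟨m, fun i => ((f i).erase {p, q}).image (fun e => e.image (cr p q)), ?_, ?_, ?_, ?_⟩
  · intro i e' he'
    by_contra h
    exact hout i e' h he'
  · intro i
    rw [even2_iff]
    intro w
    have hev := (even2_iff _).1 (hf.even i)
    -- parity of the set without the edge
    have hpar : ∀ w', par w' ((f i).erase {p, q}) =
        if ({p, q} : Finset V) ∈ f i ∧ w' ∈ ({p, q} : Finset V) then 1 else 0 := by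
      intro w'
      by_cases h : ({p, q} : Finset V) ∈ f i
      · have h1 := par_erase w' (f i) _ h
        rw [hev w'] at h1
        by_cases h2 : w' ∈ ({p, q} : Finset V)
        · rw [if_pos h2] at h1
          rw [if_pos ⟨h, h2⟩]
          have h3 := zmod2_two (1 : ZMod 2)
          rw [← h3] at h1
          exact add_right_cancel h1
        · rw [if_neg h2, add_zero] at h1
          rw [if_neg (fun h3 => h2 h3.2)]
          exact h1
      · rw [erase_eq_of_notMem h, hev w', if_neg (fun h3 => h h3.1)]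
    by_cases hw : w = p
    · subst hw
      rw [par_im2 hno hpq (hsub i), hpar w, hpar q]
      have e1 : w ∈ ({w, q} : Finset V) := by simp
      have e2 : q ∈ ({w, q} : Finset V) := by simp
      simp only [e1, e2, and_true]
      exact zmod2_two _
    · by_cases hw' : w = q
      · subst hw'
        exact par_im3 hno hpq (hsub i)
      · rw [par_im1 hno w hw hw' (hsub i), hpar w]
        have e1 : w ∉ ({p, q} : Finset V) := by simp [hw, hw']
        rw [if_neg (fun h => e1 h.2)]
  · intro e'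
    by_cases he' : e' ∈ eG (QG G (cr p q))
    · obtain ⟨e, he, rfl⟩ := phi_surj he'
      simp only [hmem _ e he]
      exact hf.two e
    · rw [filter_false_of_mem fun i _ => hout i e' he']
      simp
  · intro z' hz' hev
    have hev' := (even2_iff _).1 hev
    let z₀ := (E0 G p q).filter (fun e => e.image (cr p q) ∈ z')
    have hz₀ : z₀ ⊆ E0 G p q := filter_subset _ _
    have him : z₀.image (fun e => e.image (cr p q)) = z' := by
      ext e'
      rw [mem_image]
      constructor
      · rintro ⟨e, he, rfl⟩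
        exact (mem_filter.1 he).2
      · intro h
        obtain ⟨e, he, rfl⟩ := phi_surj (hz' h)
        exact ⟨e, mem_filter.2 ⟨he, h⟩, rfl⟩
    have h1 : ∀ w, w ≠ p → w ≠ q → par w z₀ = 0 := by
      intro w hp hq
      rw [← par_im1 hno w hp hq hz₀, him, hev' w]
    have h2 : par p z₀ + par q z₀ = 0 := by
      rw [← par_im2 hno hpq hz₀, him, hev' p]
    have hpq0 : ({p, q} : Finset V) ∉ z₀ := fun h => (mem_erase.1 (hz₀ h)).1 rfl
    obtain ⟨z, hz1, hz2, hz3⟩ : ∃ z ⊆ eG G, Even2 z ∧ ∀ e ∈ E0 G p q, (e ∈ z ↔ e ∈ z₀) := by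
      by_cases h3 : par p z₀ = 0
      · refine ⟨z₀, hz₀.trans (erase_subset _ _), ?_, fun e _ => Iff.rfl⟩
        rw [even2_iff]
        intro w
        by_cases hw : w = p
        · rw [hw, h3]
        · by_cases hw' : w = q
          · rw [h3, zero_add] at h2
            rw [hw', h2]
          · exact h1 w hw hw'
      · have h4 : par p z₀ = 1 := by
          have : ∀ x : ZMod 2, x ≠ 0 → x = 1 := by decide
          exact this _ h3
        refine ⟨insert {p, q} z₀, ?_, ?_, ?_⟩
        · intro e he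
          rcases mem_insert.1 he with h | h
          · rw [h]
            exact mem_eG.2 ⟨p, q, hpq', rfl⟩
          · exact erase_subset _ _ (hz₀ h)
        · rw [even2_iff]
          intro w
          rw [par_insert w z₀ _ hpq0]
          by_cases hw : w = p
          · rw [hw, h4, if_pos (by simp)]
            exact zmod2_two 1
          · by_cases hw' : w = q
            · rw [h4] at h2
              rw [hw', if_pos (by simp)]
              exact h2
            · rw [h1 w hw hw', if_neg (by simp [hw, hw']), add_zero]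
        · intro e he
          rw [mem_insert]
          constructor
          · rintro (h | h)
            · exact absurd h (mem_erase.1 he).1
            · exact h
          · exact Or.inr
    obtain ⟨J, hJ⟩ := hf.span z hz1 hz2
    refine ⟨J, fun e' => ?_⟩
    by_cases he' : e' ∈ eG (QG G (cr p q))
    · obtain ⟨e, he, rfl⟩ := phi_surj he'
      simp only [hmem _ e he]
      rw [← hJ e, hz3 e he]
      constructor
      · intro h
        exact mem_filter.2 ⟨he, h⟩
      · intro h
        exact (mem_filter.1 h).2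
    · rw [filter_false_of_mem fun i _ => hout i e' he']
      constructor
      · intro h
        exact absurd (hz' h) he'
      · intro h
        simp at h

end ct

/-- packet CT -/
theorem pCT (hSU : StmtSU) : StmtCT := by
  intro V _ G p q hG hpq
  let G₁ : SimpleGraph V :=
    { Adj := fun a b => G.Adj a b ∧ ¬ (a = q ∧ G.Adj p b) ∧ ¬ (b = q ∧ G.Adj p a)
      symm := ⟨fun _ _ h => ⟨h.1.symm, h.2.2, h.2.1⟩⟩
      loopless := ⟨fun _ h => h.1.ne rfl⟩ }
  have hle : G₁ ≤ G := fun _ _ h => h.1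
  have hpq1 : G₁.Adj p q := ⟨hpq, fun h => hpq.ne h.1, fun h => h.2.ne rfl⟩
  have hno : ∀ u, ¬ (G₁.Adj p u ∧ G₁.Adj q u) := fun u h => h.2.2.1 ⟨rfl, h.1.1⟩
  have hQ : QG G₁ (cr p q) = QG G (cr p q) := by
    ext x y
    constructor
    · rintro ⟨h, u, v, hu, hv, huv⟩
      exact ⟨h, u, v, hu, hv, huv.1⟩
    · rintro ⟨h, u, v, hu, hv, huv⟩
      refine ⟨h, ?_⟩
      by_cases h1 : u = q ∧ G.Adj p v
      · refine ⟨p, v, ?_, hv, h1.2, fun h2 => hpq.ne h2.1, fun h2 => h2.2.ne rfl⟩
        rw [← hu, h1.1, cr_p, cr_q]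
      · by_cases h2 : v = q ∧ G.Adj p u
        · refine ⟨u, p, hu, ?_, h2.2.symm, fun h3 => h3.2.ne rfl, fun h3 => hpq.ne h3.1⟩
          rw [← hv, h2.1, cr_p, cr_q]
        · exact ⟨u, v, hu, hv, huv, h1, h2⟩
  rw [← hQ]
  exact ct0 hno (hSU V G G₁ hle hG) hpq1

end Pool.Agent.Helper39.ML
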