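import Pool.Agent.Helper30.ML.Goals

/-!
# Project ML (MP_bf413e_co), packet NX: crossing lemma
-/

set_option autoImplicit false
set_option linter.unusedSectionVars false

namespace Pool.Agent.Helper39.ML

open scoped Classical
open Finset
open Pool.Agent.Helper30.ML

section nx

variable {V : Type} {G : SimpleGraph V}

/-- the vertices reachable inside `S` -/
def RS (G : SimpleGraph V) (S : Set V) (a : V) : Set V := {x | (rs G S).Reachable a x}

theorem self_RS (S : Set V) (a : V) : a ∈ RS G S a := SimpleGraph.Reachable.refl a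

theorem RS_sub {S : Set V} {a : V} (ha : a ∈ S) : RS G S a ⊆ S := by
  intro x hx
  have h := (SimpleGraph.reachable_iff_reflTransGen _ _).1 hx
  induction h with
  | refl => exact ha
  | tail h1 h2 ih => exact h2.2.2

theorem RS_con {S : Set V} {a : V} : ConS G (RS G S a) := by
  have h : ∀ x, (rs G S).Reachable a x → (rs G (RS G S a)).Reachable a x := by
    intro x hx
    have h := (SimpleGraph.reachable_iff_reflTransGen _ _).1 hx
    clear hx
    induction h with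
    | refl => exact SimpleGraph.Reachable.refl a
    | @tail b c h1 h2 ih =>
      have hb : (rs G S).Reachable a b := (SimpleGraph.reachable_iff_reflTransGen _ _).2 h1
      have hc : (rs G S).Reachable a c := hb.trans h2.reachable
      have h3 : (rs G (RS G S a)).Adj b c := ⟨h2.1, hb, hc⟩
      exact ih.trans h3.reachable
  exact ⟨⟨a, self_RS S a⟩, fun u hu v hv => (h u hu).symm.trans (h v hv)⟩

theorem RS_adj {A T : Set V} {a t : V} (hA : ConS G A) (ha : a ∈ A) (haT : a ∉ T) (ht : t ∈ A)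
    (htT : t ∈ T) : ∃ x ∈ RS G (A \ T) a, ∃ y ∈ T, G.Adj x y := by
  have h := (SimpleGraph.reachable_iff_reflTransGen _ _).1 (hA.2 a ha t ht)
  have key : ∀ x, Relation.ReflTransGen (rs G A).Adj a x →
      (x ∈ A \ T ∧ (rs G (A \ T)).Reachable a x) ∨
        ∃ x ∈ RS G (A \ T) a, ∃ y ∈ T, G.Adj x y := by
    intro x hx
    induction hx with
    | refl => exact Or.inl ⟨⟨ha, haT⟩, SimpleGraph.Reachable.refl a⟩
    | @tail b c h1 h2 ih =>
      rcases ih with ⟨hb, hb'⟩ | ih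
      · by_cases hc : c ∈ T
        · exact Or.inr ⟨b, hb', c, hc, h2.1⟩
        · have h3 : (rs G (A \ T)).Adj b c := ⟨h2.1, hb, ⟨h2.2.2, hc⟩⟩
          exact Or.inl ⟨⟨h2.2.2, hc⟩, hb'.trans h3.reachable⟩
      · exact Or.inr ih
  rcases key t h with h1 | h1
  · exact absurd htT h1.1.2
  · exact h1

theorem con_single (a : V) : ConS G {a} := by
  refine ⟨⟨a, rfl⟩, ?_⟩
  rintro u rfl v rfl
  exact SimpleGraph.Reachable.refl _

theorem con_pair {a b : V} (h : G.Adj a b) : ConS G {a, b} := by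
  have h1 : (rs G {a, b}).Reachable a b :=
    SimpleGraph.Adj.reachable (G := rs G {a, b}) ⟨h, Or.inl rfl, Or.inr rfl⟩
  refine ⟨⟨a, Or.inl rfl⟩, ?_⟩
  rintro u (rfl | rfl) v (rfl | rfl)
  · exact SimpleGraph.Reachable.refl _
  · exact h1
  · exact h1.symm
  · exact SimpleGraph.Reachable.refl _

/-- disjoint and adjacent -/
def DA (G : SimpleGraph V) (S T : Set V) : Prop := Disjoint S T ∧ ∃ x ∈ S, ∃ y ∈ T, G.Adj x y

theorem DA.symm {S T : Set V} (h : DA G S T) : DA G T S := by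
  obtain ⟨h1, x, hx, y, hy, h2⟩ := h
  exact ⟨h1.symm, y, hy, x, hx, h2.symm⟩

theorem km5 (hKM : StmtKM) [Fintype V] (hG : Mac G) (S₀ S₁ S₂ S₃ S₄ : Set V)
    (c₀ : ConS G S₀) (c₁ : ConS G S₁) (c₂ : ConS G S₂) (c₃ : ConS G S₃) (c₄ : ConS G S₄)
    (h01 : DA G S₀ S₁) (h02 : DA G S₀ S₂) (h03 : DA G S₀ S₃) (h04 : DA G S₀ S₄)
    (h12 : DA G S₁ S₂) (h13 : DA G S₁ S₃) (h14 : DA G S₁ S₄) (h23 : DA G S₂ S₃)
    (h24 : DA G S₂ S₄) (h34 : DA G S₃ S₄) : False := by
  let S : Fin 5 → Set V := ![S₀, S₁, S₂, S₃, S₄]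
  have hc : ∀ i, ConS G (S i) := by
    intro i
    fin_cases i
    exacts [c₀, c₁, c₂, c₃, c₄]
  have hd : ∀ i j, i ≠ j → DA G (S i) (S j) := by
    intro i j hij
    fin_cases i <;> fin_cases j
    exacts [absurd rfl hij, h01, h02, h03, h04, h01.symm, absurd rfl hij, h12, h13, h14,
      h02.symm, h12.symm, absurd rfl hij, h23, h24, h03.symm, h13.symm, h23.symm,
      absurd rfl hij, h34, h04.symm, h14.symm, h24.symm, h34.symm, absurd rfl hij]
  refine hKM V G (fun i => (S i).toFinset) hG ?_ ?_ ?_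
  · intro i j hij
    rw [Set.disjoint_toFinset]
    exact (hd i j hij).1
  · intro i
    rw [Set.coe_toFinset]
    exact hc i
  · intro i j hij
    obtain ⟨x, hx, y, hy, h⟩ := (hd i j hij).2
    exact ⟨x, Set.mem_toFinset.2 hx, y, Set.mem_toFinset.2 hy, h⟩

end nx

/-- packet NX -/
theorem pNX (hKM : StmtKM) : StmtNX := by
  intro V _ G v w hG hinj hvw hcyc i A B hvA hvB hAB hcA hcB h1A h3A h2B h4B
  have e12 := hcyc i
  have e23 := hcyc (i + 1)
  have e34 := hcyc (i + 2)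
  have e45 := hcyc (i + 3)
  have e51 := hcyc (i + 4)
  have a1 : i + 1 + 1 = i + 2 := (by decide : ∀ i : Fin 5, i + 1 + 1 = i + 2) i
  have a2 : i + 2 + 1 = i + 3 := (by decide : ∀ i : Fin 5, i + 2 + 1 = i + 3) i
  have a3 : i + 3 + 1 = i + 4 := (by decide : ∀ i : Fin 5, i + 3 + 1 = i + 4) i
  have a4 : i + 4 + 1 = i := (by decide : ∀ i : Fin 5, i + 4 + 1 = i) i
  rw [a1] at e23
  rw [a2] at e34
  rw [a3] at e45
  rw [a4] at e51
  have n13 : w i ≠ w (i + 2) := fun h => by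
    have h1 := hinj h
    have h2 : ∀ i : Fin 5, i ≠ i + 2 := by decide
    exact h2 i h1
  have n24 : w (i + 1) ≠ w (i + 3) := fun h => by
    have h1 := hinj h
    have h2 : ∀ i : Fin 5, i + 1 ≠ i + 3 := by decide
    exact h2 i h1
  have n25 : w (i + 1) ≠ w (i + 4) := fun h => by
    have h1 := hinj h
    have h2 : ∀ i : Fin 5, i + 1 ≠ i + 4 := by decide
    exact h2 i h1
  have n35 : w (i + 4) ≠ w (i + 2) := fun h => by
    have h1 := hinj h
    have h2 : ∀ i : Fin 5, i + 4 ≠ i + 2 := by decide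
    exact h2 i h1
  have p1 := hvw i
  have p2 := hvw (i + 1)
  have p3 := hvw (i + 2)
  have p4 := hvw (i + 3)
  have p5 := hvw (i + 4)
  revert e12 e23 e34 e45 e51 n13 n24 n25 n35 p1 p2 p3 p4 p5 h1A h2B h3A h4B
  generalize w i = v₁
  generalize w (i + 1) = v₂
  generalize w (i + 2) = v₃
  generalize w (i + 3) = v₄
  generalize w (i + 4) = v₅
  intro h1A h3A h2B h4B e12 e23 e34 e45 e51 n13 n24 n25 n35 p1 p2 p3 p4 p5
  -- the set `A₁`
  have hA1 : v₁ ∈ A \ {v₃} := ⟨h1A, n13⟩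
  have sA : RS G (A \ {v₃}) v₁ ⊆ A \ {v₃} := RS_sub hA1
  have dv : ∀ S : Set V, v ∉ S → Disjoint ({v} : Set V) S := fun S h =>
    Set.disjoint_singleton_left.2 h
  have hdA : DA G (RS G (A \ {v₃}) v₁) {v₃} :=
    ⟨Set.disjoint_singleton_right.2 fun h => (sA h).2 rfl,
      RS_adj hcA h1A n13 h3A rfl⟩
  have h3B : v₃ ∉ B := fun h => Set.disjoint_left.1 hAB h3A h
  have hv1 : DA G {v} (RS G (A \ {v₃}) v₁) :=
    ⟨dv _ fun h => hvA (sA h).1, v, rfl, v₁, self_RS _ _, p1⟩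
  have hv3 : DA G {v} {v₃} := ⟨dv _ fun h => p3.ne h, v, rfl, v₃, rfl, p3⟩
  by_cases h5 : v₅ ∈ A
  · have h5' : v₅ ∈ RS G (A \ {v₃}) v₁ :=
      SimpleGraph.Adj.reachable (G := rs G (A \ {v₃})) ⟨e51.symm, hA1, ⟨h5, n35⟩⟩
    have hB2 : v₂ ∈ B \ {v₄} := ⟨h2B, n24⟩
    have sB : RS G (B \ {v₄}) v₂ ⊆ B \ {v₄} := RS_sub hB2
    have hdB : DA G (RS G (B \ {v₄}) v₂) {v₄} :=
      ⟨Set.disjoint_singleton_right.2 fun h => (sB h).2 rfl,
        RS_adj hcB h2B n24 h4B rfl⟩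
    refine km5 hKM hG {v} (RS G (A \ {v₃}) v₁) {v₃} (RS G (B \ {v₄}) v₂) {v₄}
      (con_single v) RS_con (con_single v₃) RS_con (con_single v₄) hv1 hv3
      ⟨dv _ fun h => hvB (sB h).1, v, rfl, v₂, self_RS _ _, p2⟩
      ⟨dv _ fun h => p4.ne h, v, rfl, v₄, rfl, p4⟩ hdA
      ⟨?_, v₁, self_RS _ _, v₂, self_RS _ _, e12⟩
      ⟨?_, v₅, h5', v₄, rfl, e45.symm⟩
      ⟨?_, v₃, rfl, v₂, self_RS _ _, e23.symm⟩
      ⟨?_, v₃, rfl, v₄, rfl, e34⟩ hdB
    · exact Set.disjoint_left.2 fun x hx hy => Set.disjoint_left.1 hAB (sA hx).1 (sB hy).1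
    · exact Set.disjoint_singleton_right.2 fun h => Set.disjoint_left.1 hAB (sA h).1 h4B
    · exact Set.disjoint_singleton_left.2 fun h => h3B (sB h).1
    · exact Set.disjoint_singleton_left.2 fun h => e34.ne h
  · have hB2 : v₂ ∈ B \ {v₄, v₅} := ⟨h2B, fun h => by
      rcases h with h | h
      · exact n24 h
      · exact n25 h⟩
    have sB : RS G (B \ {v₄, v₅}) v₂ ⊆ B \ {v₄, v₅} := RS_sub hB2
    have hdB : DA G (RS G (B \ {v₄, v₅}) v₂) {v₄, v₅} :=
      ⟨Set.disjoint_left.2 fun x hx hy => (sB hx).2 hy,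
        RS_adj hcB h2B hB2.2 h4B (Or.inl rfl)⟩
    refine km5 hKM hG {v} (RS G (A \ {v₃}) v₁) {v₃} (RS G (B \ {v₄, v₅}) v₂) {v₄, v₅}
      (con_single v) RS_con (con_single v₃) RS_con (con_pair e45) hv1 hv3
      ⟨dv _ fun h => hvB (sB h).1, v, rfl, v₂, self_RS _ _, p2⟩
      ⟨dv _ ?_, v, rfl, v₄, Or.inl rfl, p4⟩ hdA
      ⟨?_, v₁, self_RS _ _, v₂, self_RS _ _, e12⟩
      ⟨?_, v₁, self_RS _ _, v₅, Or.inr rfl, e51.symm⟩
      ⟨?_, v₃, rfl, v₂, self_RS _ _, e23.symm⟩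
      ⟨?_, v₃, rfl, v₄, Or.inl rfl, e34⟩ hdB
    · rintro (h | h)
      · exact p4.ne h
      · exact p5.ne h
    · exact Set.disjoint_left.2 fun x hx hy => Set.disjoint_left.1 hAB (sA hx).1 (sB hy).1
    · refine Set.disjoint_left.2 fun x hx hy => ?_
      rcases hy with h | h
      · exact Set.disjoint_left.1 hAB (sA hx).1 (h ▸ h4B)
      · exact h5 (h ▸ (sA hx).1)
    · exact Set.disjoint_singleton_left.2 fun h => h3B (sB h).1
    · refine Set.disjoint_singleton_left.2 fun h => ?_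
      rcases h with h | h
      · exact e34.ne h
      · exact n35 h.symm

end Pool.Agent.Helper39.ML
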